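import Pool.Agent.V11197.EEData

set_option autoImplicit false

/-!
Classes `ω ∈ H^4(Z^8)` with form `B_ω` isometric to `E_8 + 10 H`: there are infinitely many up to
automorphisms of `Z^8`, and `ω²` takes all even values.

The classes are `ω_s = ω_0 + s η` where `ω_0` is the class of the starting file
`MP_69cf13_gt/EEightPlusTenH` and `η` is a product of four linear forms such that
`B_{ω_0}⁻¹ B_η` is nilpotent and `ω_0 η = - [T]`.
-/

open ExteriorAlgebra Module Matrix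
open Pool.Agent.Results.MP_69cf13_gt.EEightPlusTenH (Coh H T IsFormOf IsZBasis gramE8H10)
open Pool.Agent.Results.MP_69cf13_gt.EEightPlusTenH.Aux
open Pool.Agent.V11197.EE

namespace Pool.Agent.Results.MP_58c1a9_gt.AllEvenSquares

/-- The form `B_ω` of the class `ω ∈ H^4(Z^8)` is isometric to `E_8 + 10 H`: there are a form `φ`
on `H^2(Z^8)` with `x y ω = φ(x, y) [T]` and a `Z`-basis of `H^2(Z^8)` in which `φ` has the Gram
matrix of `E_8 + 10 H`. -/
def FormIsE8Plus10H (ω : Coh 8) : Prop :=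
  ∃ φ : Coh 8 → Coh 8 → ℤ, IsFormOf (H 8 2) ω (T 8) φ ∧
    ∃ b : Fin 8 ⊕ Fin 2 × Fin 10 → Coh 8, IsZBasis (H 8 2) b ∧
      ∀ i j, φ (b i) (b j) = gramE8H10 i j

namespace Aux

/-- the correction matrix -/
def corr (s : ℤ) : Matrix (Fin 6) (Fin 6) ℤ :=
  !![0, 0, 0, 0, 0, 0; 0, 0, 0, 0, 0, -2 * s ^ 2; 0, 0, 0, 0, 0, 0; 0, 0, -s, 0, 0, 0;
     0, s, 0, 0, 0, -4 * s ^ 3; -s, 0, 0, 0, 0, 4 * s ^ 4]

theorem wx (s : ℤ) : W * corr s =
    !![0, 2 * s, 0, 0, 0, -8 * s ^ 3; 0, 0, 0, 0, 0, -4 * s ^ 2; 0, 0, 0, 0, 0, 0;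
       0, 0, 0, 0, 0, 0; 0, 0, 0, 0, 0, 0; 0, 0, 0, 0, 0, 0] := by
  apply Matrix.ext
  intro i j
  fin_cases i <;> fin_cases j <;> simp [corr, W, Matrix.mul_apply, Fin.sum_univ_six]
  all_goals ring

theorem one6 : (1 : Matrix (Fin 6) (Fin 6) ℤ) =
    !![1, 0, 0, 0, 0, 0; 0, 1, 0, 0, 0, 0; 0, 0, 1, 0, 0, 0; 0, 0, 0, 1, 0, 0; 0, 0, 0, 0, 1, 0;
       0, 0, 0, 0, 0, 1] := by decide +kernel

theorem bracket (s : ℤ) : corr s + (corr s)ᵀ + (corr s)ᵀ * (W * corr s) +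
    s • ((1 + (W * corr s))ᵀ * Hy * (1 + W * corr s)) = 0 := by
  rw [wx, one6]
  apply Matrix.ext
  intro i j
  simp only [Matrix.add_apply, Matrix.smul_apply, Matrix.mul_apply, Fin.sum_univ_six,
    Matrix.transpose_apply, smul_eq_mul, Matrix.zero_apply]
  fin_cases i <;> fin_cases j <;> simp [corr, Hy] <;> ring

/-- the base change matrix -/
def P (s : ℤ) : Matrix (Fin 28) (Fin 28) ℤ := Q + F * (corr s * (V * Q))

theorem A0_P (s : ℤ) : A0 * P s = R + Vᵀ * (corr s * (V * Q)) := by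
  unfold P
  rw [Matrix.mul_add, A0_Q, ← Matrix.mul_assoc A0 F, A0_F]

theorem V_P (s : ℤ) : V * P s = (1 + W * corr s) * (V * Q) := by
  unfold P
  rw [Matrix.mul_add, ← Matrix.mul_assoc V F, V_F, Matrix.add_mul, Matrix.one_mul, Matrix.mul_assoc]

theorem F_R : Fᵀ * R = V * Q := by
  rw [← A0_Q, ← Matrix.mul_assoc]
  congr 1
  have h := congrArg Matrix.transpose A0_F
  rw [Matrix.transpose_mul, A0_symm, Matrix.transpose_transpose] at h
  exact h

theorem F_V : Fᵀ * Vᵀ = W := by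
  rw [← Matrix.transpose_mul, V_F, W_symm]

theorem P_gram (s : ℤ) : (P s)ᵀ * (A0 + s • A1) * P s = Gr := by
  set K := V * Q with hK
  have h1 : (P s)ᵀ * A0 * P s =
      Gr + Kᵀ * (corr s + (corr s)ᵀ + (corr s)ᵀ * (W * corr s)) * K := by
    have hPt : (P s)ᵀ = Qᵀ + Kᵀ * (corr s)ᵀ * Fᵀ := by
      unfold P
      rw [Matrix.transpose_add, Matrix.transpose_mul, Matrix.transpose_mul]
    rw [Matrix.mul_assoc, A0_P, hPt]
    rw [Matrix.add_mul, Matrix.mul_add, Matrix.mul_add, Q_R]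
    have e1 : Qᵀ * (Vᵀ * (corr s * (V * Q))) = Kᵀ * corr s * K := by
      rw [← Matrix.mul_assoc, ← Matrix.transpose_mul, ← hK, Matrix.mul_assoc]
    have e2 : Kᵀ * (corr s)ᵀ * Fᵀ * R = Kᵀ * (corr s)ᵀ * K := by
      rw [Matrix.mul_assoc, F_R]
    have e3 : Kᵀ * (corr s)ᵀ * Fᵀ * (Vᵀ * (corr s * (V * Q))) =
        Kᵀ * ((corr s)ᵀ * (W * corr s)) * K := by
      rw [Matrix.mul_assoc (Kᵀ * (corr s)ᵀ), ← Matrix.mul_assoc Fᵀ, F_V]
      simp only [Matrix.mul_assoc, hK]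
    rw [e1, e2, e3]
    simp only [Matrix.mul_add, Matrix.add_mul]
    abel
  have h2 : (P s)ᵀ * A1 * P s =
      Kᵀ * ((1 + (W * corr s))ᵀ * Hy * (1 + W * corr s)) * K := by
    have e1 : (P s)ᵀ * Vᵀ = Kᵀ * (1 + (W * corr s))ᵀ := by
      rw [← Matrix.transpose_mul, V_P, Matrix.transpose_mul]
    calc (P s)ᵀ * A1 * P s = ((P s)ᵀ * Vᵀ) * Hy * (V * P s) := by
          rw [← A1_eq]; simp only [Matrix.mul_assoc]
      _ = _ := by
          rw [e1, V_P]; simp only [Matrix.mul_assoc, hK]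
  rw [Matrix.mul_add, Matrix.add_mul, Matrix.mul_smul, Matrix.smul_mul, h1, h2, add_assoc]
  have h3 : Kᵀ * (corr s + (corr s)ᵀ + (corr s)ᵀ * (W * corr s)) * K +
      s • (Kᵀ * ((1 + (W * corr s))ᵀ * Hy * (1 + W * corr s)) * K) = 0 := by
    rw [← Matrix.smul_mul, ← Matrix.mul_smul, ← Matrix.add_mul, ← Matrix.mul_add, bracket]
    simp
  rw [h3, add_zero]

/-- the classes `ω_s` -/
noncomputable def om (s : ℤ) : Coh 8 := ev 8 omega + s • ev 8 eta

/-- the monomials -/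
noncomputable def x (p : Fin 28) : Coh 8 := ev 8 (pr p)

theorem x_mem (p : Fin 28) : x p ∈ ⋀[ℤ]^2 (Fin 8 → ℤ) :=
  ev_mem 8 2 _ (by revert p; decide +kernel)

theorem om_mem (s : ℤ) : om s ∈ ⋀[ℤ]^4 (Fin 8 → ℤ) :=
  add_mem (ev_mem 8 4 omega (by decide +kernel))
    (Submodule.smul_mem _ _ (ev_mem 8 4 eta (by decide +kernel)))

theorem vol0 (p q : Fin 28) : vol 8 (x p * x q * ev 8 omega) = A0 p q := by
  have h := coef_spec 8 _ _ _ (check0 p q)
  rw [ev_mul, ev_mul, mon8] at h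
  unfold x
  rw [h, map_smul, vol_T, smul_eq_mul, mul_one]

theorem vol1 (p q : Fin 28) : vol 8 (x p * x q * ev 8 eta) = A1 p q := by
  have h := coef_spec 8 _ _ _ (check1 p q)
  rw [ev_mul, ev_mul, mon8] at h
  unfold x
  rw [h, map_smul, vol_T, smul_eq_mul, mul_one]

theorem vols (s : ℤ) (p q : Fin 28) : vol 8 (x p * x q * om s) = (A0 + s • A1) p q := by
  unfold om
  rw [mul_add, map_add, vol0, mul_smul_comm, map_smul, vol1]
  rfl

/-- the basis -/
noncomputable def b (s : ℤ) (i : Fin 28) : Coh 8 := ∑ p, P s p i • x p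

theorem b_mem (s : ℤ) (i : Fin 28) : b s i ∈ ⋀[ℤ]^2 (Fin 8 → ℤ) :=
  Submodule.sum_mem _ fun p _ => Submodule.smul_mem _ _ (x_mem p)

theorem vol_b (s : ℤ) (i j : Fin 28) : vol 8 (b s i * b s j * om s) = Gr i j := by
  have h := congrFun (congrFun (P_gram s) i) j
  rw [← h]
  unfold b
  simp only [Finset.sum_mul, Finset.mul_sum, map_sum, smul_mul_assoc, mul_smul_comm, map_smul,
    vols, smul_eq_mul, Matrix.mul_apply, Matrix.transpose_apply]
  refine Finset.sum_congr rfl fun q _ => Finset.sum_congr rfl fun p _ => ?_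
  ring

/-- the identification of the index sets -/
def ix : Fin 8 ⊕ Fin 2 × Fin 10 → Fin 28
  | .inl i => ⟨i.val, by omega⟩
  | .inr (a, k) => ⟨8 + 2 * k.val + a.val, by omega⟩

theorem Gr_ix : ∀ i j, Gr (ix i) (ix j) = gramE8H10 i j := by decide +kernel

theorem form_om (s : ℤ) : FormIsE8Plus10H (om s) := by
  refine ⟨fun y z => vol 8 (y * z * om s), form_spec _ (om_mem s), fun i => b s (ix i), ?_,
    fun i j => (vol_b s (ix i) (ix j)).trans (Gr_ix i j)⟩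
  obtain ⟨B, hB⟩ := exists_basis_of_gram (form 8 (om s))
    (fun i : Fin 8 ⊕ Fin 2 × Fin 10 => (⟨_, b_mem s (ix i)⟩ : ⋀[ℤ]^2 (Fin 8 → ℤ)))
    (by rw [exteriorPower.finrank_eq]; simp; decide) gramInv (by
      rw [← gram_mul]; congr 1; ext i j
      exact (vol_b s (ix i) (ix j)).trans (Gr_ix i j))
  refine ⟨fun i => b_mem s (ix i), ?_, ?_⟩
  · have h1 := B.linearIndependent.map' (Submodule.subtype _) (Submodule.ker_subtype _)
    have h2 : (⇑(Submodule.subtype (⋀[ℤ]^2 (Fin 8 → ℤ))) ∘ ⇑B) = fun i => b s (ix i) := by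
      funext i
      simp only [Function.comp_apply, hB, Submodule.subtype_apply]
    rwa [h2] at h1
  · intro z hz
    have h1 : (⟨z, hz⟩ : ⋀[ℤ]^2 (Fin 8 → ℤ)) ∈ Submodule.span ℤ (Set.range B) := by
      rw [B.span_eq]; trivial
    have h2 := Submodule.mem_map_of_mem (f := Submodule.subtype (⋀[ℤ]^2 (Fin 8 → ℤ))) h1
    rw [Submodule.map_span, ← Set.range_comp] at h2
    have h3 : (⇑(Submodule.subtype (⋀[ℤ]^2 (Fin 8 → ℤ))) ∘ ⇑B) = fun i => b s (ix i) := by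
      funext i
      simp only [Function.comp_apply, hB, Submodule.subtype_apply]
    rw [h3] at h2
    exact h2

theorem om_sq (s : ℤ) : om s * om s = (2 * (1 - s)) • T 8 := by
  have h00 : ev 8 omega * ev 8 omega = (2 : ℤ) • T 8 := by
    have h := coef_spec 8 [0, 1, 2, 3, 4, 5, 6, 7] (mul omega omega) 2 (by decide +kernel)
    rwa [ev_mul, mon8] at h
  have h01 : ev 8 omega * ev 8 eta = (-1 : ℤ) • T 8 := by
    have h := coef_spec 8 [0, 1, 2, 3, 4, 5, 6, 7] (mul omega eta) (-1) (by decide +kernel)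
    rwa [ev_mul, mon8] at h
  have h10 : ev 8 eta * ev 8 omega = (-1 : ℤ) • T 8 := by
    have h := coef_spec 8 [0, 1, 2, 3, 4, 5, 6, 7] (mul eta omega) (-1) (by decide +kernel)
    rwa [ev_mul, mon8] at h
  have h11 : ev 8 eta * ev 8 eta = (0 : ℤ) • T 8 := by
    have h := coef_spec 8 [0, 1, 2, 3, 4, 5, 6, 7] (mul eta eta) 0 (by decide +kernel)
    rwa [ev_mul, mon8] at h
  unfold om
  rw [mul_add, add_mul, add_mul, mul_smul_comm, mul_smul_comm, smul_mul_assoc, smul_mul_assoc,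
    h00, h01, h10, h11]
  simp only [smul_smul, ← add_smul]
  congr 1
  ring

theorem map_T (g : (Fin 8 → ℤ) →ₗ[ℤ] (Fin 8 → ℤ)) :
    ExteriorAlgebra.map g (T 8) = LinearMap.det g • T 8 := by
  have h : ExteriorAlgebra.map g (T 8) = ιMulti ℤ 8 (fun i => g (Pi.basisFun ℤ (Fin 8) i)) := by
    rw [T_eq, ExteriorAlgebra.map_apply_ιMulti]
    rfl
  rw [h, ιMulti_eq]
  congr 1
  have h1 := Module.Basis.det_comp (Pi.basisFun ℤ (Fin 8)) g (Pi.basisFun ℤ (Fin 8))
  rw [Module.Basis.det_self, mul_one] at h1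
  exact h1

end Aux

open Aux

/-- **Main result.** For every integer `m` there is a class `ω_m ∈ H^4(Z^8)` with `ω_m² = 2m [T]`
and form isometric to `E_8 + 10 H`. If an automorphism of `Z^8` maps `ω_m` to `ω_n` then
`|m| = |n|`; in particular there are infinitely many classes with form `E_8 + 10 H` up to
automorphisms of `Z^8`. -/
theorem result : ∃ ω : ℤ → Coh 8,
    (∀ m : ℤ, ω m ∈ H 8 4 ∧ ω m * ω m = (2 * m) • T 8 ∧ FormIsE8Plus10H (ω m)) ∧
    ∀ (g : (Fin 8 → ℤ) ≃ₗ[ℤ] (Fin 8 → ℤ)) (m n : ℤ),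
      ExteriorAlgebra.map (g : (Fin 8 → ℤ) →ₗ[ℤ] (Fin 8 → ℤ)) (ω m) = ω n → |m| = |n| := by
  refine ⟨fun m => om (1 - m), fun m => ⟨om_mem _, ?_, form_om _⟩, ?_⟩
  · rw [om_sq]; congr 1; ring
  · intro g m n h
    have h1 := congrArg (fun z => z * z) h
    simp only at h1
    rw [← map_mul, om_sq, om_sq, map_zsmul, map_T] at h1
    have h2 := congrArg (vol 8) h1
    rw [map_smul, map_smul, map_smul, vol_T] at h2
    simp only [smul_eq_mul, mul_one] at h2
    have h3 : IsUnit (LinearMap.det (g : (Fin 8 → ℤ) →ₗ[ℤ] (Fin 8 → ℤ))) :=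
      LinearEquiv.isUnit_det' g
    rcases Int.isUnit_iff.1 h3 with h4 | h4
    · rw [h4] at h2
      have : m = n := by linarith
      rw [this]
    · rw [h4] at h2
      have : m = -n := by linarith
      rw [this, abs_neg]

end Pool.Agent.Results.MP_58c1a9_gt.AllEvenSquares
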